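import Mathlib

/-!
# Edge-interdiction path games on layered graphs: the setting
-/

namespace Pool.Agent.R544.MG

/-- A layered graph: a finite set `V` of vertices which is partitioned into `L > 1` nonempty layers
(numbered from `0`; `layer v` is the layer of `v`); every edge goes from one layer to the next one;
the first layer consists of the source `s` only. -/
structure LayeredGraph where
  V : Type
  [fin : Fintype V]
  L : ℕ
  hL : 1 < L
  layer : V → Fin L
  layer_nonempty : ∀ l : Fin L, ∃ v : V, layer v = l
  s : V
  first_layer : ∀ v : V, (layer v : ℕ) = 0 ↔ v = s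
  E : V → V → Prop
  edge_layer : ∀ u v : V, E u v → (layer v : ℕ) = layer u + 1

attribute [instance] LayeredGraph.fin

namespace LayeredGraph

variable (G : LayeredGraph)

/-- The paths from the source to the last layer: `p l` is the vertex of the path in the layer `l`. -/
def Path : Type :=
  {p : Fin G.L → G.V // (∀ l, G.layer (p l) = l) ∧
    ∀ l l' : Fin G.L, (l' : ℕ) = l + 1 → G.E (p l) (p l')}

noncomputable instance : Fintype G.Path := by
  classical
  unfold Path
  infer_instance

variable {G}

/-- Two paths have an edge in common. -/
def Path.Share (p q : G.Path) : Prop :=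
  ∃ l l' : Fin G.L, (l' : ℕ) = l + 1 ∧ p.1 l = q.1 l ∧ p.1 l' = q.1 l'

open Classical in
/-- The payoff of the attacker for pure strategies: `1` if the paths have no edge in common. -/
noncomputable def pay (p q : G.Path) : ℝ := if p.Share q then 0 else 1

/-- A mixed strategy: a probability distribution on the paths. -/
def IsMixed (x : G.Path → ℝ) : Prop := (∀ p, 0 ≤ x p) ∧ ∑ p, x p = 1

/-- The expected payoff of the attacker. -/
noncomputable def payoff (xd xa : G.Path → ℝ) : ℝ := ∑ p, ∑ q, xd p * xa q * pay p q

/-- `(xd, xa)` is a Nash equilibrium. -/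
def IsNash (xd xa : G.Path → ℝ) : Prop :=
  IsMixed xd ∧ IsMixed xa ∧ (∀ x, IsMixed x → payoff xd x ≤ payoff xd xa) ∧
    ∀ x, IsMixed x → payoff xd xa ≤ payoff x xa

/-- The product of the transition probabilities along a path. -/
noncomputable def prodAlong (q : G.V → G.V → ℝ) (p : G.Path) : ℝ :=
  ∏ l : Fin G.L, if h : (l : ℕ) + 1 < G.L then q (p.1 l) (p.1 ⟨l + 1, h⟩) else 1

/-- A mixed strategy is Markovian: there are transition probabilities `q u v` for the edges `u → v`,
summing to `1` over the out-edges of every vertex which is reached and has out-edges, such that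
every path has the product of the transition probabilities of its edges as its probability. -/
def IsMarkovian (x : G.Path → ℝ) : Prop :=
  ∃ q : G.V → G.V → ℝ, (∀ u v, 0 ≤ q u v) ∧ (∀ u v, ¬ G.E u v → q u v = 0) ∧
    (∀ u, (∃ v, G.E u v) → (∃ p : G.Path, 0 < x p ∧ ∃ l, p.1 l = u) → ∑ v, q u v = 1) ∧
    ∀ p, x p = prodAlong q p

end LayeredGraph

end Pool.Agent.R544.MG
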