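import Pool.Agent.R544.MG.Defs

/-!
# A layered graph whose path game has no Markovian equilibrium
-/

set_option autoImplicit false

namespace Pool.Agent.R544.MG

open LayeredGraph

/-- The edges of the example. -/
def el : List (Fin 10 × Fin 10) :=
  [(0, 1), (0, 2), (0, 3), (1, 4), (2, 4), (2, 5), (3, 4), (3, 5), (4, 6), (4, 7), (5, 7), (6, 8),
    (7, 8), (7, 9)]

/-- The layers of the example. -/
def ly : Fin 10 → Fin 5 := ![0, 1, 1, 1, 2, 2, 3, 3, 4, 4]

/-- The example. -/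
def G₀ : LayeredGraph where
  V := Fin 10
  L := 5
  hL := by norm_num
  layer := ly
  layer_nonempty := by decide
  s := 0
  first_layer := by decide
  E := fun u v => (u, v) ∈ el
  edge_layer := by decide

/-- The paths of the example. -/
def tb : Fin 13 → Fin 5 → Fin 10 :=
  ![![0, 1, 4, 6, 8], ![0, 1, 4, 7, 8], ![0, 1, 4, 7, 9], ![0, 2, 4, 6, 8], ![0, 2, 4, 7, 8],
    ![0, 2, 4, 7, 9], ![0, 2, 5, 7, 8], ![0, 2, 5, 7, 9], ![0, 3, 4, 6, 8], ![0, 3, 4, 7, 8],
    ![0, 3, 4, 7, 9], ![0, 3, 5, 7, 8], ![0, 3, 5, 7, 9]]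

theorem tb_ok : ∀ k : Fin 13, (∀ l, ly (tb k l) = l) ∧
    ∀ l l' : Fin 5, (l' : ℕ) = l + 1 → (tb k l, tb k l') ∈ el := by decide

/-- The paths of the example. -/
def P (k : Fin 13) : G₀.Path := ⟨tb k, tb_ok k⟩

theorem tb_inj : ∀ k k' : Fin 13, tb k = tb k' → k = k' := by decide

theorem tb_surj (b c d e : Fin 10) (h1 : (0, b) ∈ el) (h2 : (b, c) ∈ el) (h3 : (c, d) ∈ el)
    (h4 : (d, e) ∈ el) : ∃ k : Fin 13, tb k = ![0, b, c, d, e] := by
  have a1 : ∀ x ∈ el, ∀ y ∈ el, x.2 = y.1 → x.1 = 0 →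
      (x.2, y.2) ∈ [((1 : Fin 10), (4 : Fin 10)), (2, 4), (2, 5), (3, 4), (3, 5)] := by decide
  have a2 : ∀ x ∈ el, ∀ y ∈ el, x.2 = y.1 → x.1 = 4 ∨ x.1 = 5 →
      (x.1, x.2, y.2) ∈ [((4 : Fin 10), (6 : Fin 10), (8 : Fin 10)), (4, 7, 8), (4, 7, 9),
        (5, 7, 8), (5, 7, 9)] := by decide
  have b1 := a1 _ h1 _ h2 rfl rfl
  simp only [List.mem_cons, Prod.mk.injEq, List.not_mem_nil, or_false] at b1
  have b2 := a2 _ h3 _ h4 rfl (by
    rcases b1 with ⟨_, h⟩ | ⟨_, h⟩ | ⟨_, h⟩ | ⟨_, h⟩ | ⟨_, h⟩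
    · exact Or.inl h
    · exact Or.inl h
    · exact Or.inr h
    · exact Or.inl h
    · exact Or.inr h)
  simp only [List.mem_cons, Prod.mk.injEq, List.not_mem_nil, or_false] at b2
  rcases b1 with ⟨rfl, rfl⟩ | ⟨rfl, rfl⟩ | ⟨rfl, rfl⟩ | ⟨rfl, rfl⟩ | ⟨rfl, rfl⟩ <;>
    rcases b2 with ⟨h, rfl, rfl⟩ | ⟨h, rfl, rfl⟩ | ⟨h, rfl, rfl⟩ | ⟨h, rfl, rfl⟩ | ⟨h, rfl, rfl⟩ <;>
    first
    | exact absurd h (by decide)
    | decide

theorem P_bij : Function.Bijective P := by
  constructor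
  · intro k k' h
    exact tb_inj k k' (congrArg (fun p : G₀.Path => p.1) h)
  · intro p
    have h0 : p.1 (0 : Fin 5) = (0 : Fin 10) :=
      (G₀.first_layer _).1 (congrArg (fun l : Fin 5 => (l : ℕ)) (p.2.1 (0 : Fin 5)))
    have h1 := p.2.2 (0 : Fin 5) (1 : Fin 5) rfl
    have h2 := p.2.2 (1 : Fin 5) (2 : Fin 5) rfl
    have h3 := p.2.2 (2 : Fin 5) (3 : Fin 5) rfl
    have h4 := p.2.2 (3 : Fin 5) (4 : Fin 5) rfl
    rw [h0] at h1
    obtain ⟨k, hk⟩ := tb_surj _ _ _ _ h1 h2 h3 h4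
    refine ⟨k, Subtype.ext ?_⟩
    change tb k = p.1
    rw [hk]
    funext l
    fin_cases l
    · exact h0.symm
    · rfl
    · rfl
    · rfl
    · rfl

/-- Disjointness of the paths. -/
def dj (k k' : Fin 13) : Bool :=
  decide (∀ l l' : Fin 5, (l' : ℕ) = l + 1 → ¬ (tb k l = tb k' l ∧ tb k l' = tb k' l'))

theorem pay_P (k k' : Fin 13) : pay (P k) (P k') = if dj k k' = true then 1 else 0 := by
  classical
  unfold pay dj
  by_cases h : (P k).Share (P k')
  · rw [if_pos h, if_neg]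
    obtain ⟨l, l', h1, h2, h3⟩ := h
    simp only [decide_eq_true_eq]
    intro hh
    exact hh l l' h1 ⟨h2, h3⟩
  · rw [if_neg h, if_pos]
    simp only [decide_eq_true_eq]
    intro l l' h1 h2
    exact h ⟨l, l', h1, h2.1, h2.2⟩

theorem sum_P (f : G₀.Path → ℝ) : ∑ p, f p = ∑ k, f (P k) :=
  (Function.Bijective.sum_comp P_bij f).symm

theorem payoff_P (xd xa : G₀.Path → ℝ) : payoff xd xa =
    ∑ k, ∑ k', xd (P k) * xa (P k') * (if dj k k' = true then 1 else 0) := by
  unfold payoff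
  rw [sum_P]
  refine Finset.sum_congr rfl fun k _ => ?_
  rw [sum_P]
  refine Finset.sum_congr rfl fun k' _ => ?_
  rw [pay_P]

/-- The optimal strategy of the attacker, which is also optimal for the defender. -/
noncomputable def wt : Fin 13 → ℝ := ![1/5, 1/10, 1/10, 1/10, 0, 0, 1/10, 1/10, 1/10, 0, 0, 1/10, 1/10]

/-- The rows of the payoff matrix. -/
def row : Fin 13 → List (Fin 13) :=
  ![[4, 5, 6, 7, 9, 10, 11, 12], [3, 7, 8, 12], [3, 6, 8, 11], [1, 2, 9, 10, 11, 12], [0, 8, 12],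
    [0, 8, 11], [0, 2, 8, 10], [0, 1, 8, 9], [1, 2, 4, 5, 6, 7], [0, 3, 7], [0, 3, 6],
    [0, 2, 3, 5], [0, 1, 3, 4]]

theorem row_eq : ∀ k, (List.finRange 13).filter (dj k) = row k := by decide

theorem dj_symm : ∀ k k', dj k k' = dj k' k := by decide

theorem sum_row (y : Fin 13 → ℝ) (k : Fin 13) :
    ∑ k', y k' * (if dj k k' = true then 1 else 0) = ((row k).map y).sum := by
  rw [← row_eq, Fin.sum_univ_def]
  induction List.finRange 13 with
  | nil => rfl
  | cons a l ih =>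
    rw [List.map_cons, List.sum_cons, ih, List.filter_cons]
    by_cases h : dj k a = true
    · rw [if_pos h, if_pos h, List.map_cons, List.sum_cons, mul_one]
    · rw [if_neg h, if_neg h, mul_zero, zero_add]

theorem row_wt (k : Fin 13) : ((row k).map wt).sum ≥ 2 / 5 ∧
    ((row k).map wt).sum ≤ 2 / 5 := by
  fin_cases k <;> simp [row, wt] <;> norm_num

/-- The strategy on the paths. -/
noncomputable def w₀ (p : G₀.Path) : ℝ := wt ((Equiv.ofBijective P P_bij).symm p)

theorem w₀_P (k : Fin 13) : w₀ (P k) = wt k := by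
  unfold w₀
  congr 1
  exact (Equiv.ofBijective P P_bij).symm_apply_apply k

theorem mixed_w₀ : IsMixed w₀ := by
  constructor
  · intro p
    obtain ⟨k, rfl⟩ := P_bij.2 p
    rw [w₀_P]
    fin_cases k <;> simp [wt]
  · rw [sum_P]
    simp only [w₀_P]
    simp [Fin.sum_univ_succ, wt]
    norm_num

/-- Against the strategy of the attacker all strategies of the defender give `2 / 5`. -/
theorem payoff_w₀_right {x : G₀.Path → ℝ} (hx : IsMixed x) : payoff x w₀ = 2 / 5 := by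
  rw [payoff_P]
  have h : ∀ k, ∑ k', x (P k) * w₀ (P k') * (if dj k k' = true then 1 else 0) =
      x (P k) * (2 / 5) := by
    intro k
    have h1 := sum_row wt k
    have h2 := row_wt k
    have h3 : ((row k).map wt).sum = 2 / 5 := le_antisymm h2.2 h2.1
    rw [h3] at h1
    rw [← h1, Finset.mul_sum]
    refine Finset.sum_congr rfl fun k' _ => ?_
    rw [w₀_P, mul_assoc]
  simp only [h]
  rw [← Finset.sum_mul, ← sum_P x, hx.2, one_mul]

theorem payoff_comm (x y : G₀.Path → ℝ) : payoff x y = payoff y x := by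
  rw [payoff_P, payoff_P, Finset.sum_comm]
  refine Finset.sum_congr rfl fun k _ => Finset.sum_congr rfl fun k' _ => ?_
  rw [dj_symm k' k, mul_comm (x (P k'))]

theorem nash_w₀ : IsNash w₀ w₀ := by
  refine ⟨mixed_w₀, mixed_w₀, fun x hx => ?_, fun x hx => ?_⟩
  · rw [payoff_comm, payoff_w₀_right hx, payoff_w₀_right mixed_w₀]
  · rw [payoff_w₀_right hx, payoff_w₀_right mixed_w₀]

/-- Pure strategies. -/
noncomputable def pure (k : Fin 13) (p : G₀.Path) : ℝ := by
  classical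
  exact if p = P k then 1 else 0

theorem pure_P (k k' : Fin 13) : pure k (P k') = if k' = k then 1 else 0 := by
  classical
  unfold pure
  by_cases h : k' = k
  · rw [if_pos (by rw [h]), if_pos h]
  · rw [if_neg (fun h' => h (P_bij.1 h')), if_neg h]

theorem mixed_pure (k : Fin 13) : IsMixed (pure k) := by
  constructor
  · intro p
    obtain ⟨k', rfl⟩ := P_bij.2 p
    rw [pure_P]
    split_ifs <;> norm_num
  · rw [sum_P]
    simp only [pure_P]
    simp

theorem payoff_pure (k : Fin 13) (x : G₀.Path → ℝ) :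
    payoff (pure k) x = ((row k).map (fun k' => x (P k'))).sum := by
  rw [payoff_P, ← sum_row (fun k' => x (P k')) k]
  simp only [pure_P]
  rw [Finset.sum_eq_single k]
  · refine Finset.sum_congr rfl fun k' _ => ?_
    rw [if_pos rfl, one_mul]
  · intro b _ hb
    refine Finset.sum_eq_zero fun k' _ => ?_
    rw [if_neg hb, zero_mul, zero_mul]
  · intro h
    exact absurd (Finset.mem_univ _) h

/-- In every equilibrium the strategy of the attacker gives at least `2 / 5` against every path. -/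
theorem row_ge {xd xa : G₀.Path → ℝ} (h : IsNash xd xa) (k : Fin 13) :
    2 / 5 ≤ ((row k).map (fun k' => xa (P k'))).sum := by
  obtain ⟨h1, h2, h3, h4⟩ := h
  have h5 := h3 w₀ mixed_w₀
  rw [payoff_w₀_right h1] at h5
  have h6 := h4 (pure k) (mixed_pure k)
  rw [payoff_pure] at h6
  linarith

/-- Two facts on the strategies of the attacker in equilibrium. -/
theorem facts {xd xa : G₀.Path → ℝ} (h : IsNash xd xa) :
    0 < xa (P 1) ∧ 0 < xa (P 3) ∧ xa (P 4) = 0 := by
  have r0 := row_ge h 0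
  have r1 := row_ge h 1
  have r2 := row_ge h 2
  have r3 := row_ge h 3
  have r4 := row_ge h 4
  have r5 := row_ge h 5
  have r6 := row_ge h 6
  have r7 := row_ge h 7
  have r8 := row_ge h 8
  have r9 := row_ge h 9
  have r10 := row_ge h 10
  have r11 := row_ge h 11
  have r12 := row_ge h 12
  have hs := h.2.1.2
  have hp := h.2.1.1
  rw [sum_P] at hs
  simp [Fin.sum_univ_succ] at hs
  simp [row] at r0 r1 r2 r3 r4 r5 r6 r7 r8 r9 r10 r11 r12
  have p0 := hp (P 0)
  have p1 := hp (P 1)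
  have p2 := hp (P 2)
  have p3 := hp (P 3)
  have p4 := hp (P 4)
  have p5 := hp (P 5)
  have p6 := hp (P 6)
  have p7 := hp (P 7)
  have p8 := hp (P 8)
  have p9 := hp (P 9)
  have p10 := hp (P 10)
  have p11 := hp (P 11)
  have p12 := hp (P 12)
  refine ⟨?_, ?_, ?_⟩
  · linarith
  · linarith
  · linarith

theorem prod_P (q : Fin 10 → Fin 10 → ℝ) (k : Fin 13) : prodAlong (G := G₀) q (P k) =
    q (tb k 0) (tb k 1) * q (tb k 1) (tb k 2) * q (tb k 2) (tb k 3) * q (tb k 3) (tb k 4) := by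
  change ∏ l : Fin 5, (if h : (l : ℕ) + 1 < 5 then q (tb k l) (tb k ⟨l + 1, h⟩) else 1) = _
  rw [Fin.prod_univ_five]
  simp only [Fin.val_zero, Fin.val_one, Fin.val_two]
  rw [dif_pos (by norm_num), dif_pos (by norm_num), dif_pos (by norm_num),
    dif_pos (show ((3 : Fin 5) : ℕ) + 1 < 5 by decide),
    dif_neg (show ¬ ((4 : Fin 5) : ℕ) + 1 < 5 by decide), mul_one]
  rfl

/-- In no equilibrium the strategy of the attacker is Markovian. -/
theorem not_markovian {xd xa : G₀.Path → ℝ} (h : IsNash xd xa) : ¬ IsMarkovian xa := by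
  rintro ⟨q, h0, -, -, hq⟩
  obtain ⟨h1, h3, h4⟩ := facts h
  rw [hq, prod_P (q := q)] at h1 h3 h4
  have a1 : q (tb 1 2) (tb 1 3) ≠ 0 := by
    intro h
    rw [h] at h1
    simp at h1
  have a2 : q (tb 1 3) (tb 1 4) ≠ 0 := by
    intro h
    rw [h] at h1
    simp at h1
  have a3 : q (tb 3 0) (tb 3 1) ≠ 0 := by
    intro h
    rw [h] at h3
    simp at h3
  have a4 : q (tb 3 1) (tb 3 2) ≠ 0 := by
    intro h
    rw [h] at h3
    simp at h3
  exact (mul_ne_zero (mul_ne_zero (mul_ne_zero a3 a4) a1) a2) h4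

end Pool.Agent.R544.MG
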